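import Pool.Agent.Helper82_FLX.Vol

/-!
# Powers of the distance are integrable
-/

set_option autoImplicit false

open scoped InnerProductSpace Topology ContDiff Manifold
open MeasureTheory Filter Set

namespace Pool.Agent.FLX.H82

open Pool.Agent.Helper42_Paneitz Pool.Agent.Helper82_Vir

theorem one_sub_nonneg (x y : S4) : 0 ≤ 1 - ⟪(x : E5), (y : E5)⟫_ℝ := by
  have := inner_le_one x y
  linarith

theorem one_sub_le_two (x y : S4) : 1 - ⟪(x : E5), (y : E5)⟫_ℝ ≤ 2 := by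
  have := neg_one_le_inner x y
  linarith

theorem measurable_pow (x : S4) (a : ℝ) :
    Measurable fun y : S4 => (1 - ⟪(x : E5), (y : E5)⟫_ℝ) ^ a :=
  (continuous_const.sub (continuous_inner_right x)).measurable.pow_const a

/-- the dyadic coefficient times the volume -/
theorem coef_eq (a : ℝ) (k : ℕ) :
    ((1 / 2 : ℝ) ^ (k + 1)) ^ (-a) * ((1 / 2 : ℝ) ^ k) ^ 2 = 2 ^ a * ((2 : ℝ) ^ (a - 2)) ^ k := by
  have h2 : (0 : ℝ) < 2 := by norm_num
  have e1 : ((1 / 2 : ℝ) ^ (k + 1)) ^ (-a) = (2 : ℝ) ^ (a * (k + 1)) := by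
    rw [one_div, inv_pow, Real.inv_rpow (by positivity), Real.rpow_neg (by positivity), inv_inv,
      ← Real.rpow_natCast, ← Real.rpow_mul h2.le]
    congr 1
    push_cast
    ring
  have e2 : ((1 / 2 : ℝ) ^ k) ^ 2 = (2 : ℝ) ^ (-(2 * k : ℝ)) := by
    rw [Real.rpow_neg h2.le, one_div, inv_pow, inv_pow, ← pow_mul, ← Real.rpow_natCast]
    congr 2
    push_cast
    ring
  have e3 : ((2 : ℝ) ^ (a - 2)) ^ k = (2 : ℝ) ^ ((a - 2) * k) := by
    rw [← Real.rpow_natCast, ← Real.rpow_mul h2.le]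
  rw [e1, e2, e3, ← Real.rpow_add h2, ← Real.rpow_add h2]
  congr 1
  ring

theorem pointwise_le (x y : S4) {a : ℝ} (ha : 0 < a) :
    ENNReal.ofReal ((1 - ⟪(x : E5), (y : E5)⟫_ℝ) ^ (-a)) ≤
      1 + ∑' k : ℕ, ENNReal.ofReal (((1 / 2 : ℝ) ^ (k + 1)) ^ (-a)) *
        indicator {y : S4 | 1 - ⟪(x : E5), (y : E5)⟫_ℝ ≤ (1 / 2 : ℝ) ^ k} 1 y := by
  set t := 1 - ⟪(x : E5), (y : E5)⟫_ℝ with ht
  have ht0 : 0 ≤ t := one_sub_nonneg x y
  rcases ht0.eq_or_lt with h0 | h0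
  · rw [← h0, Real.zero_rpow (by linarith), ENNReal.ofReal_zero]
    exact zero_le
  rcases le_or_gt 1 t with h1 | h1
  · refine le_add_right ?_
    rw [← ENNReal.ofReal_one]
    apply ENNReal.ofReal_le_ofReal
    rw [Real.rpow_neg h0.le]
    exact inv_le_one_of_one_le₀ (Real.one_le_rpow h1 ha.le)
  · obtain ⟨n, hn1, hn2⟩ := exists_nat_pow_near_of_lt_one h0 h1.le (y := (1 / 2 : ℝ))
      (by norm_num) (by norm_num)
    refine le_add_left ?_
    refine le_trans ?_ (ENNReal.le_tsum n)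
    have hmem : y ∈ {y : S4 | 1 - ⟪(x : E5), (y : E5)⟫_ℝ ≤ (1 / 2 : ℝ) ^ n} := hn2
    rw [indicator_of_mem hmem, Pi.one_apply, mul_one]
    apply ENNReal.ofReal_le_ofReal
    exact Real.rpow_le_rpow_of_nonpos (by positivity) hn1.le (by linarith)

theorem pow_lint (x : S4) {a C : ℝ} (ha : 0 < a) (ha2 : a < 2) (hC0 : 0 ≤ C)
    (hC : ∀ δ : ℝ, 0 < δ → δ ≤ 1 →
      sig {y : S4 | 1 - ⟪(x : E5), (y : E5)⟫_ℝ ≤ δ} ≤ ENNReal.ofReal (C * δ ^ 2)) :
    ∫⁻ y, ENNReal.ofReal ((1 - ⟪(x : E5), (y : E5)⟫_ℝ) ^ (-a)) ∂sig ≤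
      ENNReal.ofReal (msig + C * 2 ^ a * (1 - (2 : ℝ) ^ (a - 2))⁻¹) := by
  have hρ0 : (0 : ℝ) < 2 ^ (a - 2) := Real.rpow_pos_of_pos (by norm_num) _
  have hρ1 : (2 : ℝ) ^ (a - 2) < 1 := Real.rpow_lt_one_of_one_lt_of_neg (by norm_num) (by linarith)
  have hmeas : ∀ k : ℕ, MeasurableSet {y : S4 | 1 - ⟪(x : E5), (y : E5)⟫_ℝ ≤ (1 / 2 : ℝ) ^ k} :=
    fun k => (isClosed_le (continuous_const.sub (continuous_inner_right x))
      continuous_const).measurableSet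
  have h1 : ∀ k : ℕ, ENNReal.ofReal (((1 / 2 : ℝ) ^ (k + 1)) ^ (-a)) *
      sig {y : S4 | 1 - ⟪(x : E5), (y : E5)⟫_ℝ ≤ (1 / 2 : ℝ) ^ k} ≤
      ENNReal.ofReal (C * 2 ^ a * ((2 : ℝ) ^ (a - 2)) ^ k) := by
    intro k
    refine (mul_le_mul_right (hC _ (by positivity) (pow_le_one₀ (by norm_num) (by norm_num)))
      _).trans ?_
    rw [← ENNReal.ofReal_mul (by positivity)]
    apply le_of_eq
    congr 1
    have := coef_eq a k
    linear_combination C * this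
  calc ∫⁻ y, ENNReal.ofReal ((1 - ⟪(x : E5), (y : E5)⟫_ℝ) ^ (-a)) ∂sig
      ≤ ∫⁻ y, (1 + ∑' k : ℕ, ENNReal.ofReal (((1 / 2 : ℝ) ^ (k + 1)) ^ (-a)) *
        indicator {y : S4 | 1 - ⟪(x : E5), (y : E5)⟫_ℝ ≤ (1 / 2 : ℝ) ^ k} 1 y) ∂sig :=
        lintegral_mono fun y => pointwise_le x y ha
    _ = sig univ + ∑' k : ℕ, ENNReal.ofReal (((1 / 2 : ℝ) ^ (k + 1)) ^ (-a)) *
        sig {y : S4 | 1 - ⟪(x : E5), (y : E5)⟫_ℝ ≤ (1 / 2 : ℝ) ^ k} := by
        rw [lintegral_add_left measurable_const, lintegral_one, lintegral_tsum]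
        · congr 1
          refine tsum_congr fun k => ?_
          rw [lintegral_const_mul _ (measurable_one.indicator (hmeas k)),
            lintegral_indicator_one (hmeas k)]
        · intro k
          exact (measurable_const.mul (measurable_one.indicator (hmeas k))).aemeasurable
    _ ≤ ENNReal.ofReal msig +
        ∑' k : ℕ, ENNReal.ofReal (C * 2 ^ a * ((2 : ℝ) ^ (a - 2)) ^ k) := by
        refine add_le_add ?_ (ENNReal.tsum_le_tsum h1)
        unfold msig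
        rw [ENNReal.ofReal_toReal (measure_ne_top _ _)]
    _ = ENNReal.ofReal (msig + C * 2 ^ a * (1 - (2 : ℝ) ^ (a - 2))⁻¹) := by
        rw [← ENNReal.ofReal_tsum_of_nonneg (fun k => by positivity)
          ((summable_geometric_of_lt_one hρ0.le hρ1).mul_left _), tsum_mul_left,
          tsum_geometric_of_lt_one hρ0.le hρ1, ← ENNReal.ofReal_add msig_pos.le]
        have : 0 < 1 - (2 : ℝ) ^ (a - 2) := by linarith
        positivity

/-- POW -/
theorem pow (hV : Pool.Agent.FLX.VolStmt) : Pool.Agent.FLX.PowStmt := by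
  intro a ha2
  rcases le_or_gt a 0 with ha | ha
  · have hb : ∀ x y : S4, (1 - ⟪(x : E5), (y : E5)⟫_ℝ) ^ (-a) ≤ 2 ^ (-a) := fun x y =>
      Real.rpow_le_rpow (one_sub_nonneg x y) (one_sub_le_two x y) (by linarith)
    have hint : ∀ x : S4, Integrable (fun y : S4 => (1 - ⟪(x : E5), (y : E5)⟫_ℝ) ^ (-a)) sig := by
      intro x
      refine Integrable.mono' (integrable_const ((2 : ℝ) ^ (-a)))
        (measurable_pow x (-a)).aestronglyMeasurable (Eventually.of_forall fun y => ?_)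
      rw [Real.norm_of_nonneg (Real.rpow_nonneg (one_sub_nonneg x y) _)]
      exact hb x y
    refine ⟨msig * 2 ^ (-a), mul_nonneg msig_pos.le (by positivity), fun x => ⟨hint x, ?_⟩⟩
    rw [← integral_const_sig]
    exact integral_mono (hint x) (integrable_const _) fun y => hb x y
  · obtain ⟨C, hC0, hC⟩ := hV
    have hρ1 : (2 : ℝ) ^ (a - 2) < 1 :=
      Real.rpow_lt_one_of_one_lt_of_neg (by norm_num) (by linarith)
    have hρ2 : 0 < 1 - (2 : ℝ) ^ (a - 2) := by linarith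
    have hm := msig_pos
    have hB : 0 ≤ msig + C * 2 ^ a * (1 - (2 : ℝ) ^ (a - 2))⁻¹ := by positivity
    refine ⟨_, hB, fun x => ?_⟩
    have hl := pow_lint x ha ha2 hC0 (hC x)
    have hnn : 0 ≤ᵐ[sig] fun y : S4 => (1 - ⟪(x : E5), (y : E5)⟫_ℝ) ^ (-a) :=
      Eventually.of_forall fun y => Real.rpow_nonneg (one_sub_nonneg x y) _
    refine ⟨⟨(measurable_pow x (-a)).aestronglyMeasurable, ?_⟩, ?_⟩
    · rw [hasFiniteIntegral_iff_ofReal hnn]
      exact hl.trans_lt ENNReal.ofReal_lt_top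
    · rw [integral_eq_lintegral_of_nonneg_ae hnn (measurable_pow x (-a)).aestronglyMeasurable]
      exact ENNReal.toReal_le_of_le_ofReal hB hl

end Pool.Agent.FLX.H82
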