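import Pool.Agent.Helper82_FLX.Vol

/-!
# The Green representation
-/

set_option autoImplicit false

open scoped InnerProductSpace Topology ContDiff Manifold
open MeasureTheory Filter Set

namespace Pool.Agent.FLX.H82

open Pool.Agent.Helper42_Paneitz Pool.Agent.Helper82_Vir

theorem one_sub_pos_of_ne {x y : S4} (h : y ≠ x) : 0 < 1 - ⟪(x : E5), (y : E5)⟫_ℝ := by
  have h1 := dist_sq x y
  have h2 : 0 < dist y x := dist_pos.2 h
  nlinarith [sq_nonneg (dist y x), pow_pos h2 2]

theorem abs_zlog_le {r : ℝ} (h0 : 0 < r) (h1 : r < 1) {x y : S4} (hxy : y ≠ x) :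
    |zlog (r • (x : E5)) y| ≤ |ell x y| + 1 := by
  rw [zlog_apply, real_inner_smul_left]
  unfold ell
  set s := ⟪(x : E5), (y : E5)⟫_ℝ with hs
  have hs1 : 0 < 1 - s := one_sub_pos_of_ne hxy
  have hs2 : -1 ≤ s := neg_one_le_inner x y
  rw [abs_neg, abs_neg]
  rcases le_or_gt 0 s with h | h
  · have e1 : 1 - s ≤ 1 - r * s := by nlinarith
    have e2 : 1 - r * s ≤ 1 := by nlinarith
    have e3 := Real.log_le_log hs1 e1
    have e4 : Real.log (1 - r * s) ≤ 0 := Real.log_nonpos (by linarith) e2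
    rw [abs_of_nonpos e4, abs_of_nonpos (e3.trans e4)]
    linarith
  · have e1 : 1 ≤ 1 - r * s := by nlinarith
    have e2 : 1 - r * s ≤ 2 := by nlinarith
    have e3 := Real.log_nonneg e1
    have e4 : Real.log (1 - r * s) ≤ 1 := by
      have := Real.log_le_sub_one_of_pos (show 0 < 1 - r * s by linarith)
      linarith
    rw [abs_of_nonneg e3]
    linarith [abs_nonneg (Real.log (1 - s))]

theorem tendsto_zlog {x y : S4} (hxy : y ≠ x) :
    Tendsto (fun r : ℝ => zlog (r • (x : E5)) y) (𝓝[<] 1) (𝓝 (ell x y)) := by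
  have hs := one_sub_pos_of_ne hxy
  have hc : ContinuousAt (fun r : ℝ => -Real.log (1 - r * ⟪(x : E5), (y : E5)⟫_ℝ)) 1 := by
    refine ContinuousAt.neg (ContinuousAt.log (by fun_prop) ?_)
    rw [one_mul]
    exact hs.ne'
  have h1 := hc.tendsto.mono_left (nhdsWithin_le_nhds (s := Iio 1))
  rw [one_mul] at h1
  refine h1.congr fun r => ?_
  rw [zlog_apply, real_inner_smul_left]

/-- the representation formula -/
theorem integral_ell_paneitz (hK : ∀ x, Integrable (ell x) sig) {u : S4 → ℝ} (hu : Sm u)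
    (x : S4) : ∫ y, ell x y * paneitz u y ∂sig = 6 * (msig * u x) - 6 * ∫ y, u y ∂sig := by
  have hp : Continuous (paneitz u) := continuous_of_sm hu.paneitz
  obtain ⟨C, hC0, hC⟩ := exists_bound hp
  have l1 : Tendsto (fun r : ℝ => ∫ y, zlog (r • (x : E5)) y * paneitz u y ∂sig) (𝓝[<] 1)
      (𝓝 (∫ y, ell x y * paneitz u y ∂sig)) := by
    refine tendsto_integral_filter_of_dominated_convergence (fun y => (|ell x y| + 1) * C) ?_ ?_
      ?_ ?_
    · filter_upwards [ev_pos] with r hr
      exact ((continuous_of_sm (sm_zlog _ (norm_smul_lt hr.1 hr.2 x))).fun_mul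
        hp).aestronglyMeasurable
    · filter_upwards [ev_pos] with r hr
      filter_upwards [ae_ne x] with y hy
      rw [norm_mul]
      exact mul_le_mul (abs_zlog_le hr.1 hr.2 hy) (hC y) (norm_nonneg _) (by positivity)
    · exact ((hK x).abs.add (integrable_const 1)).mul_const C
    · filter_upwards [ae_ne x] with y hy
      exact (tendsto_zlog hy).mul_const _
  have l2 : Tendsto (fun r : ℝ => ∫ y, zlog (r • (x : E5)) y * paneitz u y ∂sig) (𝓝[<] 1)
      (𝓝 (6 * (msig * u x) - 6 * ∫ y, u y ∂sig)) := by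
    have h1 := ((tendsto_bub x (continuous_of_sm hu)).const_mul 6).sub_const (6 * ∫ y, u y ∂sig)
    refine h1.congr' ?_
    filter_upwards [ev_pos] with r hr
    rw [integral_zlog hu hr.1 hr.2 x]
  exact tendsto_nhds_unique l1 l2

/-- REP -/
theorem rep (hK : Pool.Agent.FLX.KerStmt) : Pool.Agent.FLX.RepStmt := by
  intro u hu x
  have hm := msig_pos
  have h0 : avg (paneitz u) = 0 := by
    unfold avg
    rw [integral_paneitz hu, zero_div]
  unfold K
  rw [h0]
  simp only [sub_zero]
  rw [integral_ell_paneitz hK.1 hu x]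
  unfold avg
  field_simp

end Pool.Agent.FLX.H82
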