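import Pool.Agent.FLX.Stmts

/-!
# Volume of spherical caps
-/

set_option autoImplicit false

open scoped InnerProductSpace Topology ContDiff Manifold
open MeasureTheory Filter Set

namespace Pool.Agent.FLX.H82

open Pool.Agent.Helper42_Paneitz Pool.Agent.Helper82_Vir

theorem continuous_inner_right (x : S4) : Continuous fun y : S4 => ⟪(x : E5), (y : E5)⟫_ℝ :=
  continuous_const.inner continuous_subtype_val

/-- caps of size `δ < 1` -/
theorem cap_lt_one (x : S4) {δ : ℝ} (h0 : 0 < δ) (h1 : δ < 1) :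
    sig.real {y : S4 | 1 - ⟪(x : E5), (y : E5)⟫_ℝ ≤ δ} ≤ 16 * msig * δ ^ 2 := by
  have hr0 : 0 < 1 - δ := by linarith
  have hr1 : 1 - δ < 1 := by linarith
  have hb := continuous_bub_right hr0 hr1 x
  have hm := mul_meas_ge_le_integral_of_nonneg (μ := sig)
    (f := fun y => bub (1 - δ) x y) (Eventually.of_forall fun y => bub_nonneg (1 - δ) x y)
    (integrable_cont hb) (1 / (16 * δ ^ 2))
  rw [integral_bub hr0 hr1] at hm
  have hsub : {y : S4 | 1 - ⟪(x : E5), (y : E5)⟫_ℝ ≤ δ} ⊆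
      {y : S4 | 1 / (16 * δ ^ 2) ≤ bub (1 - δ) x y} := by
    intro y hy
    have hy' : 1 - ⟪(x : E5), (y : E5)⟫_ℝ ≤ δ := hy
    show 1 / (16 * δ ^ 2) ≤ bub (1 - δ) x y
    have hd := den_pos hr0 hr1 x y
    have hs := inner_le_one x y
    have hs' := neg_one_le_inner x y
    have hd2 : 1 - (1 - δ) * ⟪(x : E5), (y : E5)⟫_ℝ ≤ 2 * δ := by nlinarith
    have e1 : δ ≤ 1 - (1 - δ) ^ 2 := by nlinarith
    unfold bub
    calc 1 / (16 * δ ^ 2) = δ ^ 2 / (2 * δ) ^ 4 := by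
          field_simp
          ring
      _ ≤ (1 - (1 - δ) ^ 2) ^ 2 / (1 - (1 - δ) * ⟪(x : E5), (y : E5)⟫_ℝ) ^ 4 := by
          apply div_le_div₀ (by positivity) (pow_le_pow_left₀ h0.le e1 2) (by positivity)
          exact pow_le_pow_left₀ hd.le hd2 4
  have h3 : sig.real {y : S4 | 1 - ⟪(x : E5), (y : E5)⟫_ℝ ≤ δ} ≤
      sig.real {y : S4 | 1 / (16 * δ ^ 2) ≤ bub (1 - δ) x y} := measureReal_mono hsub
  have h4 : 1 / (16 * δ ^ 2) * sig.real {y : S4 | 1 - ⟪(x : E5), (y : E5)⟫_ℝ ≤ δ} ≤ msig :=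
    (mul_le_mul_of_nonneg_left h3 (by positivity)).trans hm
  have h5 : 0 < 16 * δ ^ 2 := by positivity
  rw [div_mul_eq_mul_div, one_mul, div_le_iff₀ h5] at h4
  linarith

/-- VOL -/
theorem vol : Pool.Agent.FLX.VolStmt := by
  have hm := msig_pos
  refine ⟨16 * msig, by positivity, fun x δ h0 h1 => ?_⟩
  have key : sig.real {y : S4 | 1 - ⟪(x : E5), (y : E5)⟫_ℝ ≤ δ} ≤ 16 * msig * δ ^ 2 := by
    rcases h1.lt_or_eq with h | h
    · exact cap_lt_one x h0 h
    · subst h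
      have h2 : sig.real {y : S4 | 1 - ⟪(x : E5), (y : E5)⟫_ℝ ≤ 1} ≤ sig.real univ :=
        measureReal_mono (subset_univ _)
      have h3 : sig.real univ = msig := rfl
      rw [h3] at h2
      linarith
  rw [← ofReal_measureReal]
  exact ENNReal.ofReal_le_ofReal key

end Pool.Agent.FLX.H82
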